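import Pool.Agent.W900.CH.NELev
import Pool.Agent.H440Q.W.AllY

/-!
# Changing a random oracle such that `BQP` contains `PSPACE` and is outside `PH`
-/

set_option autoImplicit false

namespace Pool.Agent.TH707.BQ

open MeasureTheory Filter Pool.Agent.NPC
open Pool.Agent.H628R3.RO (randomOracle)
open Pool.Agent.H620R2.Gauge Pool.Agent.H516R2.EQP4 Pool.Agent.H516R2.EQP Pool.Agent.H591R3.PHG
open Pool.Agent.H440Q
open Pool.Agent.W900.CH

theorem ranO_eq : ranO = randomOracle := rfl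

open Classical in
/-- Few strings are padded strings. -/
theorem close_of_padc {g : ℕ → ℝ} {ε : ℝ} (hε : 0 < ε)
    (hg : ∀ᶠ n : ℕ in atTop, 2 ^ (n : ℝ) ^ ε < g n) :
    ∃ K : ℕ, ∀ O A : Oracle, (∀ y, (∀ v, y ≠ padc K v) → A y = O y) → Close g O A := by
  obtain ⟨K, hK⟩ := SPg (ε / 2) (half_pos hε)
  refine ⟨K, fun O A h => ?_⟩
  have hR : ∀ e n, (n + e + 1) ^ K ≤
      ((fun e => (Polynomial.X + Polynomial.C (e + 1)) ^ K : ℕ → Polynomial ℕ) e).eval n := by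
    intro e n
    simp only [Polynomial.eval_pow, Polynomial.eval_add, Polynomial.eval_X, Polynomial.eval_C]
    exact le_of_eq (by rw [add_assoc])
  have h1 := hK K le_rfl _ hR
  have h2 : Tendsto (fun n : ℕ => 2 ^ (n + 1)) atTop atTop :=
    (tendsto_pow_atTop_atTop_of_one_lt (r := 2) (by norm_num)).comp (tendsto_add_atTop_nat 1)
  have h3 := h2.eventually h1
  have h4 : ∀ᶠ n : ℕ in atTop, ((n : ℝ) + 1) ^ (ε / 2) ≤ (n : ℝ) ^ ε := by
    have h5 := (tendsto_natCast_atTop_atTop (R := ℝ)).eventually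
      ((tendsto_rpow_atTop (half_pos hε)).eventually_ge_atTop (2 ^ (ε / 2)))
    filter_upwards [h5, eventually_ge_atTop 1] with n h6 h7
    have h8 : (1 : ℝ) ≤ n := by exact_mod_cast h7
    calc ((n : ℝ) + 1) ^ (ε / 2) ≤ (2 * (n : ℝ)) ^ (ε / 2) := by
          apply Real.rpow_le_rpow (by positivity) (by linarith) (half_pos hε).le
      _ = 2 ^ (ε / 2) * (n : ℝ) ^ (ε / 2) := Real.mul_rpow (by norm_num) (by positivity)
      _ ≤ (n : ℝ) ^ (ε / 2) * (n : ℝ) ^ (ε / 2) := by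
          exact mul_le_mul_of_nonneg_right h6 (by positivity)
      _ = (n : ℝ) ^ ε := by
          rw [← Real.rpow_add (by linarith)]
          congr 1
          ring
  filter_upwards [h3, h4, hg] with n h5 h6 h7
  have h8 : ∀ y ∉ Tcd K (fun e => (Polynomial.X + Polynomial.C (e + 1)) ^ K), A y = O y :=
    fun y hy => h y fun v hv => hy (Or.inr ⟨v, hv⟩)
  have h9 := dist_le_of_off h8 n
  have h10 : Real.logb 2 ((2 ^ (n + 1) : ℕ) : ℝ) = n + 1 := by
    push_cast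
    rw [Real.logb_pow, Real.logb_self_eq_one (by norm_num), mul_one]
    push_cast
    ring
  rw [h10] at h5
  have h11 : (2 : ℝ) ^ ((n : ℝ) + 1) ^ (ε / 2) ≤ 2 ^ (n : ℝ) ^ ε :=
    Real.rpow_le_rpow_of_exponent_le (by norm_num) h6
  calc (dist O A n : ℝ) ≤ _ := Nat.cast_le.2 h9
    _ ≤ 2 ^ ((n : ℝ) + 1) ^ (ε / 2) := h5
    _ ≤ 2 ^ (n : ℝ) ^ ε := h11
    _ ≤ g n := h7.le

/-- Almost every oracle can be changed at few strings such that `PSPACE` is decided by quantum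
circuits with one question, the polynomial hierarchy is infinite, and one question to the oracle
leads outside the polynomial hierarchy. -/
theorem exists_close_YG {g : ℕ → ℝ}
    (hg : ¬ ∀ ε : ℝ, 0 < ε → ∃ᶠ n : ℕ in atTop, g n ≤ 2 ^ (n : ℝ) ^ ε) :
    ∀ᵐ O ∂randomOracle, ∃ A, Close g O A ∧ (∀ L, IsPSPACE A L → IsBQPq 1 A L) ∧
      (∀ k : ℕ, ∃ L, IsSig A (k + 1) L ∧ ¬ IsSig A k L) ∧ ∃ L, IsBQPq 1 A L ∧ ¬ IsPH A L := by
  push Not at hg
  obtain ⟨ε, hε, h⟩ := hg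
  obtain ⟨K, hK⟩ := close_of_padc hε h
  obtain ⟨Bad, hBad, hA⟩ := W.all_YG K
  rw [ranO_eq] at hBad
  rw [ae_iff]
  refine measure_mono_null ?_ hBad
  intro O hO
  by_contra hOB
  obtain ⟨A, h1, h2⟩ := hA O hOB
  exact hO ⟨A, hK O A h1, h2⟩

/-- Few changes of a random oracle do not put `NP` into `BQP/poly`. -/
theorem ae_notBQP {g : ℕ → ℝ} (hg : ∀ ε : ℝ, 0 < ε → ∃ᶠ n : ℕ in atTop, g n ≤ 2 ^ (n : ℝ) ^ ε) :
    ∀ᵐ O ∂randomOracle, ∀ A, Close g O A → ∃ L, IsNP A L ∧ ¬ WithAdvice (IsBQP A) L := by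
  have h1 : ∀ᵐ O ∂randomOracle, ∀ A, Close g O A →
      A ∉ {A : Oracle | ∀ L, IsNP A L → WithAdvice (IsBQP A) L} :=
    ae_far_P (fun f hf => nullQ hf {A : Oracle | ∀ L, IsNP A L → WithAdvice (IsBQP A) L}
      fun A hA => hA _ (hitLang_np A)) hg
  filter_upwards [h1] with O hO A hA
  have := hO A hA
  push Not at this
  exact this

end Pool.Agent.TH707.BQ
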